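import Pool.Agent.H622R3.SP.Back
import Pool.Agent.H357R2.SI.Energy

/-! Counting prime tuples with shifts up to `H` by short windows. -/

set_option autoImplicit false

open Filter Topology Pool.Agent.H357R2.SI

namespace Pool.Agent.Helper341.Tup

lemma count_ge (k N H h : ℕ) (G : Finset ℕ) (hG : ∀ n ∈ G, n + h ≤ N) :
    ∑ n ∈ G, pc n (n + h) * (pc (n + h) (n + H)).choose k ≤
      h * ∑ p ∈ (Finset.Icc 1 N).filter Nat.Prime, (pc p (p + H)).choose k := by
  classical
  have h1 : ∀ n ∈ G, pc n (n + h) * (pc (n + h) (n + H)).choose k ≤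
      ∑ p ∈ (Finset.Icc 1 N).filter Nat.Prime,
        if n < p ∧ p ≤ n + h then (pc p (p + H)).choose k else 0 := by
    intro n hn
    have hsub : (Finset.Ioc n (n + h)).filter Nat.Prime ⊆
        ((Finset.Icc 1 N).filter Nat.Prime).filter (fun p => n < p ∧ p ≤ n + h) := by
      intro p hp
      simp only [Finset.mem_filter, Finset.mem_Ioc, Finset.mem_Icc] at hp ⊢
      have := hG n hn
      exact ⟨⟨⟨hp.2.pos, by omega⟩, hp.2⟩, hp.1⟩
    rw [← Finset.sum_filter]
    calc pc n (n + h) * (pc (n + h) (n + H)).choose k =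
        ∑ p ∈ (Finset.Ioc n (n + h)).filter Nat.Prime, (pc (n + h) (n + H)).choose k := by
          rw [Finset.sum_const, smul_eq_mul]; rfl
      _ ≤ ∑ p ∈ (Finset.Ioc n (n + h)).filter Nat.Prime, (pc p (p + H)).choose k := by
          apply Finset.sum_le_sum
          intro p hp
          simp only [Finset.mem_filter, Finset.mem_Ioc] at hp
          apply Nat.choose_le_choose
          exact (pc_anti hp.1.2).trans (pc_mono (by omega))
      _ ≤ _ := Finset.sum_le_sum_of_subset hsub
  refine (Finset.sum_le_sum h1).trans ?_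
  rw [Finset.sum_comm, Finset.mul_sum]
  apply Finset.sum_le_sum
  intro p hp
  rw [← Finset.sum_filter, Finset.sum_const, smul_eq_mul]
  apply Nat.mul_le_mul_right
  calc (G.filter (fun n => n < p ∧ p ≤ n + h)).card ≤ (Finset.Ico (p - h) p).card := by
        apply Finset.card_le_card
        intro n hn
        simp only [Finset.mem_filter, Finset.mem_Ico] at hn ⊢
        omega
    _ ≤ h := by rw [Nat.card_Ico]; omega

lemma sum_shifts (k N H : ℕ) : ∑ D ∈ (Finset.Icc 1 H).powersetCard k,
    ((Finset.Icc 1 N).filter (fun m => m.Prime ∧ ∀ d ∈ D, (m + d).Prime)).card =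
      ∑ p ∈ (Finset.Icc 1 N).filter Nat.Prime, (pc p (p + H)).choose k := by
  classical
  have h1 : ∀ D : Finset ℕ,
      ((Finset.Icc 1 N).filter (fun m => m.Prime ∧ ∀ d ∈ D, (m + d).Prime)).card =
      ∑ p ∈ (Finset.Icc 1 N).filter Nat.Prime, if (∀ d ∈ D, (p + d).Prime) then 1 else 0 := by
    intro D
    rw [← Finset.sum_filter, Finset.sum_const, smul_eq_mul, mul_one, Finset.filter_filter]
  rw [Finset.sum_congr rfl (fun D _ => h1 D), Finset.sum_comm]
  apply Finset.sum_congr rfl
  intro p hp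
  rw [← Finset.sum_filter, Finset.sum_const, smul_eq_mul, mul_one]
  have h2 : ((Finset.Icc 1 H).powersetCard k).filter (fun D => ∀ d ∈ D, (p + d).Prime) =
      ((Finset.Icc 1 H).filter (fun d => (p + d).Prime)).powersetCard k := by
    ext D
    simp only [Finset.mem_filter, Finset.mem_powersetCard]
    constructor
    · rintro ⟨⟨h3, h4⟩, h5⟩
      exact ⟨fun d hd => Finset.mem_filter.2 ⟨h3 hd, h5 d hd⟩, h4⟩
    · rintro ⟨h3, h4⟩
      exact ⟨⟨fun d hd => (Finset.mem_filter.1 (h3 hd)).1, h4⟩,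
        fun d hd => (Finset.mem_filter.1 (h3 hd)).2⟩
  rw [h2, Finset.card_powersetCard]
  congr 1
  unfold pc
  apply Finset.card_bij (fun d _ => p + d)
  · intro d hd
    simp only [Finset.mem_filter, Finset.mem_Icc, Finset.mem_Ioc] at hd ⊢
    exact ⟨⟨by omega, by omega⟩, hd.2⟩
  · intro a _ b _ hab
    omega
  · intro q hq
    simp only [Finset.mem_filter, Finset.mem_Ioc] at hq
    refine ⟨q - p, ?_, by omega⟩
    simp only [Finset.mem_filter, Finset.mem_Icc]
    have e : p + (q - p) = q := by omega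
    rw [e]
    exact ⟨⟨by omega, by omega⟩, hq.2⟩

lemma choose_ge (v k : ℕ) (hk : k ≤ v) (y : ℝ) (hy : 0 ≤ y) (hyv : y ≤ (v : ℝ) - k) :
    y ^ k / (k.factorial : ℝ) ≤ (v.choose k : ℝ) := by
  have h1 : (v + 1 - k) ^ k ≤ v.descFactorial k := Nat.pow_sub_le_descFactorial v k
  rw [Nat.descFactorial_eq_factorial_mul_choose] at h1
  have h2 : (((v + 1 - k : ℕ) : ℝ)) ^ k ≤ (k.factorial : ℝ) * (v.choose k : ℝ) := by
    exact_mod_cast h1
  rw [div_le_iff₀ (by exact_mod_cast Nat.factorial_pos k)]
  have h3 : y ≤ ((v + 1 - k : ℕ) : ℝ) := by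
    rw [Nat.cast_sub (by omega)]
    push_cast
    linarith
  calc y ^ k ≤ (((v + 1 - k : ℕ) : ℝ)) ^ k := pow_le_pow_left₀ hy h3 k
    _ ≤ (k.factorial : ℝ) * (v.choose k : ℝ) := h2
    _ = (v.choose k : ℝ) * (k.factorial : ℝ) := by ring

/-- the mean number of primes in a window -/
lemma mean_ge (e : ℝ) (he : 0 < e) (he1 : e ≤ 1 / 40) : ∀ᶠ N : ℕ in atTop, ∀ H : ℕ, H ≤ N →
    (1 - 20 * e) * N * H / Real.log N ≤ ∑ n ∈ Finset.range N, (pc n (n + H) : ℝ) := by
  obtain ⟨B₀, hB3, hB₀⟩ := Pool.Agent.H622R3.SP.pi_window e he (by linarith)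
  have hlog : Tendsto (fun n : ℕ => Real.log (n : ℝ)) atTop atTop :=
    Real.tendsto_log_atTop.comp tendsto_natCast_atTop_atTop
  filter_upwards [eventually_ge_atTop (B₀ + 1), hlog.eventually_ge_atTop (Real.log 2 / e),
    hlog.eventually_ge_atTop 1] with N hN h1 h2 H hH
  have hN0 : (0 : ℝ) < N := by
    have : 0 < N := by omega
    exact_mod_cast this
  have hL0 : 0 < Real.log N := by linarith
  have hsum : ∑ n ∈ Finset.range N, (pc n (n + H) : ℝ) =
      ∑ j ∈ Finset.Icc 1 H, (((Finset.range N).filter (fun n => (n + j).Prime)).card : ℝ) := by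
    have h3 : ∀ n : ℕ, pc n (n + H) = ∑ j ∈ Finset.Icc 1 H, if (n + j).Prime then 1 else 0 := by
      intro n
      rw [← Finset.sum_filter, Finset.sum_const, smul_eq_mul, mul_one]
      unfold pc
      symm
      apply Finset.card_bij (fun d _ => n + d)
      · intro d hd
        simp only [Finset.mem_filter, Finset.mem_Icc, Finset.mem_Ioc] at hd ⊢
        exact ⟨⟨by omega, by omega⟩, hd.2⟩
      · intro a _ b _ hab
        omega
      · intro q hq
        simp only [Finset.mem_filter, Finset.mem_Ioc] at hq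
        refine ⟨q - n, ?_, by omega⟩
        simp only [Finset.mem_filter, Finset.mem_Icc]
        have e : n + (q - n) = q := by omega
        rw [e]
        exact ⟨⟨by omega, by omega⟩, hq.2⟩
    have h4 : ∑ n ∈ Finset.range N, pc n (n + H) =
        ∑ j ∈ Finset.Icc 1 H, ((Finset.range N).filter (fun n => (n + j).Prime)).card := by
      rw [Finset.sum_congr rfl (fun n _ => h3 n), Finset.sum_comm]
      apply Finset.sum_congr rfl
      intro j _
      rw [← Finset.sum_filter, Finset.sum_const, smul_eq_mul, mul_one]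
    exact_mod_cast h4
  rw [hsum]
  have hterm : ∀ j ∈ Finset.Icc 1 H, (1 - 20 * e) * N / Real.log N ≤
      (((Finset.range N).filter (fun n => (n + j).Prime)).card : ℝ) := by
    intro j hj
    rw [Finset.mem_Icc] at hj
    have h3 := (hB₀ (N + (j - 1)) (by omega) (j - 1) (by omega)).1
    have h4 : pc (j - 1) (N + (j - 1)) ≤
        ((Finset.range N).filter (fun n => (n + j).Prime)).card := by
      unfold pc
      apply Finset.card_le_card_of_injOn (fun q => q - j)
      · intro q hq
        simp only [Finset.coe_filter, Finset.mem_Ioc, Set.mem_ofPred_eq, Finset.mem_range] at hq ⊢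
        have e : q - j + j = q := by omega
        rw [e]
        exact ⟨by omega, hq.2⟩
      · intro a ha b hb hab
        simp only [Finset.coe_filter, Finset.mem_Ioc, Set.mem_ofPred_eq] at ha hb
        simp only at hab
        omega
    have h4' : (pc (j - 1) (N + (j - 1)) : ℝ) ≤
        (((Finset.range N).filter (fun n => (n + j).Prime)).card : ℝ) := by exact_mod_cast h4
    refine le_trans ?_ h4'
    have h5 : ((N + (j - 1) : ℕ) : ℝ) ≤ 2 * N := by
      have : N + (j - 1) ≤ 2 * N := by omega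
      exact_mod_cast this
    have h6 : ((N + (j - 1) : ℕ) : ℝ) - ((j - 1 : ℕ) : ℝ) = N := by push_cast; ring
    rw [h6] at h3
    have h7 : (N : ℝ) ≤ ((N + (j - 1) : ℕ) : ℝ) := by exact_mod_cast Nat.le_add_right N (j - 1)
    have h8 : Real.log ((N + (j - 1) : ℕ) : ℝ) ≤ (1 + e) * Real.log N := by
      have h9 : Real.log ((N + (j - 1) : ℕ) : ℝ) ≤ Real.log (2 * N) :=
        Real.log_le_log (by linarith) h5
      rw [Real.log_mul (by norm_num) hN0.ne'] at h9
      rw [div_le_iff₀ he] at h1
      linarith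
    have h9 : (1 - 18 * e) * N ≤ pc (j - 1) (N + (j - 1)) * ((1 + e) * Real.log N) := by
      have h10 : (pc (j - 1) (N + (j - 1)) : ℝ) * Real.log ((N + (j - 1) : ℕ) : ℝ) ≤
          pc (j - 1) (N + (j - 1)) * ((1 + e) * Real.log N) :=
        mul_le_mul_of_nonneg_left h8 (Nat.cast_nonneg _)
      have h11 : 9 * e * ((N + (j - 1) : ℕ) : ℝ) ≤ 9 * e * (2 * N) :=
        mul_le_mul_of_nonneg_left h5 (by positivity)
      linarith
    rw [div_le_iff₀ hL0]
    have h12 : (1 - 20 * e) * (1 + e) ≤ 1 - 18 * e := by nlinarith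
    have h13 : (1 - 20 * e) * N * (1 + e) ≤ pc (j - 1) (N + (j - 1)) * Real.log N * (1 + e) := by
      calc (1 - 20 * e) * N * (1 + e) = ((1 - 20 * e) * (1 + e)) * N := by ring
        _ ≤ (1 - 18 * e) * N := mul_le_mul_of_nonneg_right h12 hN0.le
        _ ≤ pc (j - 1) (N + (j - 1)) * ((1 + e) * Real.log N) := h9
        _ = pc (j - 1) (N + (j - 1)) * Real.log N * (1 + e) := by ring
    exact le_of_mul_le_mul_right h13 (by linarith)
  calc (1 - 20 * e) * N * H / Real.log N = ∑ j ∈ Finset.Icc 1 H, (1 - 20 * e) * N / Real.log N := by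
        rw [Finset.sum_const, Nat.card_Icc, nsmul_eq_mul, Nat.add_sub_cancel]
        ring
    _ ≤ _ := Finset.sum_le_sum hterm

end Pool.Agent.Helper341.Tup
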