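import Pool.Agent.Helper341.Tup.Comb

/-! The lower bound at one scale. -/

set_option autoImplicit false

open Filter Topology Pool.Agent.H357R2.SI

namespace Pool.Agent.Helper341.Tup

/-- one window -/
lemma one_window (k a u v : ℕ) (ha : a = u + v) (W r δ η c0 : ℝ) (hW : 0 < W) (hη : 0 < η)
    (hη1 : η ≤ 1 / 2) (hr1 : η / 2 ≤ r) (hr2 : r ≤ η) (hc0 : 0 < c0) (hδ : δ = c0 * η / 4)
    (hk : (k : ℝ) ≤ δ * W) (hu : |(u : ℝ) - r * a| ≤ δ * W) :
    W ^ (k + 1) * (r * (1 - r) ^ k / (k.factorial : ℝ)) * (max ((a : ℝ) / W - c0 / 2) 0) ^ (k + 1) ≤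
      (u : ℝ) * (v.choose k : ℝ) := by
  have hr0 : 0 < r := by linarith
  have hr3 : 0 ≤ 1 - r := by linarith
  have hav : (a : ℝ) = u + v := by rw [ha]; push_cast; ring
  rcases le_or_gt ((a : ℝ) / W - c0 / 2) 0 with h | h
  · rw [max_eq_right h, zero_pow (Nat.succ_ne_zero k), mul_zero]
    positivity
  · rw [max_eq_left h.le]
    obtain ⟨t, ht⟩ : ∃ t : ℝ, t = (a : ℝ) / W - c0 / 2 := ⟨_, rfl⟩
    rw [← ht] at h ⊢
    have haW : (a : ℝ) = W * (t + c0 / 2) := by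
      rw [ht]; field_simp; ring
    have hu1 := (abs_le.1 hu).1
    have hu2 := (abs_le.1 hu).2
    have h1 : W * r * t ≤ u := by
      have h2 : δ * W ≤ W * (r * (c0 / 2)) := by
        have h3 : δ ≤ r * (c0 / 2) := by rw [hδ]; nlinarith
        nlinarith
      have h4 : r * a = W * r * t + W * (r * (c0 / 2)) := by rw [haW]; ring
      linarith
    have h2 : W * (1 - r) * t ≤ (v : ℝ) - k := by
      have h3 : 2 * (δ * W) ≤ W * ((1 - r) * (c0 / 2)) := by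
        have h4 : 2 * δ ≤ (1 - r) * (c0 / 2) := by
          rw [hδ]
          have h5 : 1 / 2 ≤ 1 - r := by linarith
          nlinarith
        nlinarith
      have h4 : (1 - r) * a = W * (1 - r) * t + W * ((1 - r) * (c0 / 2)) := by rw [haW]; ring
      have h5 : (v : ℝ) = (1 - r) * a - (u - r * a) := by rw [hav]; ring
      linarith
    have h2' : 0 ≤ W * (1 - r) * t := by positivity
    have h3 : k ≤ v := by
      have : (k : ℝ) ≤ v := by linarith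
      exact_mod_cast this
    have h4 := choose_ge v k h3 (W * (1 - r) * t) h2' h2
    calc W ^ (k + 1) * (r * (1 - r) ^ k / (k.factorial : ℝ)) * t ^ (k + 1)
        = (W * r * t) * ((W * (1 - r) * t) ^ k / (k.factorial : ℝ)) := by
          rw [mul_pow, mul_pow, pow_succ W, pow_succ t]; ring
      _ ≤ (u : ℝ) * (v.choose k : ℝ) := by
          apply mul_le_mul h1 h4 _ (Nat.cast_nonneg _)
          positivity

lemma core (k N H h : ℕ) (L δ η c0 C κ : ℝ) (hL : 0 < L) (hH : 0 < H) (hN : 0 < N)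
    (hη : 0 < η) (hη1 : η ≤ 1 / 2) (hr1 : η / 2 ≤ (h : ℝ) / H) (hr2 : (h : ℝ) / H ≤ η)
    (hc0 : 0 < c0) (hc1 : c0 < 1 / 3) (hδ : δ = c0 * η / 4)
    (hk : (k : ℝ) ≤ δ * (H / L)) (hC : 0 < C) (hκC : κ * C ≤ c0 ^ 2)
    (G : Finset ℕ) (hGN : G ⊆ Finset.range N) (hGh : ∀ n ∈ G, n + h ≤ N)
    (hG : ∀ n ∈ G, |(pc n (n + h) : ℝ) - (h : ℝ) / H * pc n (n + H)| ≤ δ * (H / L))
    (hhH : h ≤ H)
    (hcard : ((Finset.range N \ G).card : ℝ) ≤ κ * N)
    (hmom : ∑ n ∈ Finset.range N, (pc n (n + H) : ℝ) ^ 2 ≤ C * N * (H / L) ^ 2)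
    (hmean : (1 - c0) * N * (H / L) ≤ ∑ n ∈ Finset.range N, (pc n (n + H) : ℝ)) :
    (1 - k * η - (k + 1) * (3 * c0)) * ((H : ℝ) ^ k / (k.factorial : ℝ)) * (N / L ^ (k + 1)) ≤
      ((∑ p ∈ (Finset.Icc 1 N).filter Nat.Prime, (pc p (p + H)).choose k : ℕ) : ℝ) := by
  classical
  have hHr : (0 : ℝ) < H := by exact_mod_cast hH
  have hNr : (0 : ℝ) < N := by exact_mod_cast hN
  obtain ⟨W, hW⟩ : ∃ W : ℝ, W = (H : ℝ) / L := ⟨_, rfl⟩
  obtain ⟨r, hr⟩ : ∃ r : ℝ, r = (h : ℝ) / H := ⟨_, rfl⟩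
  rw [← hW] at hk hG hmom hmean
  rw [← hr] at hr1 hr2 hG
  have hW0 : 0 < W := by rw [hW]; positivity
  have hr0 : 0 < r := by linarith
  have hh0 : (0 : ℝ) < h := by
    have h1 : (h : ℝ) = r * H := by rw [hr]; field_simp
    rw [h1]; positivity
  obtain ⟨s, hs⟩ : ∃ s : ℕ → ℝ, s = fun n => max ((pc n (n + H) : ℝ) / W - c0 / 2) 0 := ⟨_, rfl⟩
  have hs0 : ∀ n, 0 ≤ s n := fun n => by rw [hs]; exact le_max_right _ _
  -- step 1
  have h1 : ∑ n ∈ G, W ^ (k + 1) * (r * (1 - r) ^ k / (k.factorial : ℝ)) * s n ^ (k + 1) ≤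
      ∑ n ∈ G, (pc n (n + h) : ℝ) * ((pc (n + h) (n + H)).choose k : ℝ) := by
    apply Finset.sum_le_sum
    intro n hn
    rw [hs]
    exact one_window k (pc n (n + H)) (pc n (n + h)) (pc (n + h) (n + H))
      (pc_add (by omega) (by omega)).symm W r δ η c0 hW0 hη hη1 hr1 hr2 hc0 hδ hk (hG n hn)
  have h2 : ∑ n ∈ G, (pc n (n + h) : ℝ) * ((pc (n + h) (n + H)).choose k : ℝ) ≤
      h * ((∑ p ∈ (Finset.Icc 1 N).filter Nat.Prime, (pc p (p + H)).choose k : ℕ) : ℝ) := by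
    exact_mod_cast count_ge k N H h G hGh
  -- step 2
  have h3 : ∑ n ∈ Finset.range N \ G, (pc n (n + H) : ℝ) ≤ c0 * N * W := by
    have h4 : (∑ n ∈ Finset.range N \ G, (pc n (n + H) : ℝ)) ^ 2 ≤
        ((Finset.range N \ G).card : ℝ) * ∑ n ∈ Finset.range N \ G, (pc n (n + H) : ℝ) ^ 2 :=
      sq_sum_le_card_mul_sum_sq
    have h5 : ∑ n ∈ Finset.range N \ G, (pc n (n + H) : ℝ) ^ 2 ≤
        ∑ n ∈ Finset.range N, (pc n (n + H) : ℝ) ^ 2 :=
      Finset.sum_le_sum_of_subset_of_nonneg Finset.sdiff_subset (fun _ _ _ => by positivity)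
    have h6 : (∑ n ∈ Finset.range N \ G, (pc n (n + H) : ℝ)) ^ 2 ≤ (c0 * N * W) ^ 2 := by
      calc (∑ n ∈ Finset.range N \ G, (pc n (n + H) : ℝ)) ^ 2
          ≤ ((Finset.range N \ G).card : ℝ) *
            ∑ n ∈ Finset.range N \ G, (pc n (n + H) : ℝ) ^ 2 := h4
        _ ≤ (κ * N) * (C * N * W ^ 2) := by
            apply mul_le_mul hcard (h5.trans hmom)
            · apply Finset.sum_nonneg; intro _ _; positivity
            · exact (Nat.cast_nonneg _).trans hcard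
        _ = (κ * C) * (N ^ 2 * W ^ 2) := by ring
        _ ≤ c0 ^ 2 * (N ^ 2 * W ^ 2) := mul_le_mul_of_nonneg_right hκC (by positivity)
        _ = (c0 * N * W) ^ 2 := by ring
    exact (pow_le_pow_iff_left₀ (Finset.sum_nonneg fun _ _ => Nat.cast_nonneg _) (by positivity)
      two_ne_zero).1 h6
  have h4 : (1 - 3 * c0) * N ≤ ∑ n ∈ G, s n := by
    have h5 : ∑ n ∈ G, ((pc n (n + H) : ℝ) / W - c0 / 2) ≤ ∑ n ∈ G, s n :=
      Finset.sum_le_sum fun n _ => by rw [hs]; exact le_max_left _ _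
    have h6 : ∑ n ∈ G, ((pc n (n + H) : ℝ) / W - c0 / 2) =
        (∑ n ∈ G, (pc n (n + H) : ℝ)) / W - G.card * (c0 / 2) := by
      rw [Finset.sum_sub_distrib, Finset.sum_const, nsmul_eq_mul, Finset.sum_div]
    have h7 : ∑ n ∈ Finset.range N \ G, (pc n (n + H) : ℝ) + ∑ n ∈ G, (pc n (n + H) : ℝ) =
        ∑ n ∈ Finset.range N, (pc n (n + H) : ℝ) := Finset.sum_sdiff hGN
    have h8 : (G.card : ℝ) ≤ N := by
      have := Finset.card_le_card hGN
      rw [Finset.card_range] at this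
      exact_mod_cast this
    have h9 : (1 - 2 * c0) * N * W ≤ ∑ n ∈ G, (pc n (n + H) : ℝ) := by linarith
    have h10 : (1 - 2 * c0) * N ≤ (∑ n ∈ G, (pc n (n + H) : ℝ)) / W := by
      rw [le_div_iff₀ hW0]; exact h9
    have h11 : (G.card : ℝ) * (c0 / 2) ≤ N * (c0 / 2) :=
      mul_le_mul_of_nonneg_right h8 (by positivity)
    have h12 : 0 < c0 * N := by positivity
    rw [h6] at h5
    linarith
  have hθ0 : 0 < 1 - 3 * c0 := by linarith
  have hS0 : 0 < ∑ n ∈ G, s n := lt_of_lt_of_le (by positivity) h4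
  have hGne : G.Nonempty := by
    rw [Finset.nonempty_iff_ne_empty]
    intro h5
    rw [h5, Finset.sum_empty] at hS0
    exact lt_irrefl _ hS0
  have hGc : (0 : ℝ) < G.card := by exact_mod_cast hGne.card_pos
  have hGcN : (G.card : ℝ) ≤ N := by
    have := Finset.card_le_card hGN
    rw [Finset.card_range] at this
    exact_mod_cast this
  -- step 3
  have h5 : (1 - 3 * c0) ^ (k + 1) * N ≤ ∑ n ∈ G, s n ^ (k + 1) := by
    have h6 : (∑ n ∈ G, s n) ^ (k + 1) / (G.card : ℝ) ^ k ≤ ∑ n ∈ G, s n ^ (k + 1) :=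
      pow_sum_div_card_le_sum_pow (fun n _ => hs0 n) k
    refine le_trans ?_ h6
    rw [le_div_iff₀ (by positivity)]
    calc (1 - 3 * c0) ^ (k + 1) * N * (G.card : ℝ) ^ k
        ≤ (1 - 3 * c0) ^ (k + 1) * N * (N : ℝ) ^ k := by
          apply mul_le_mul_of_nonneg_left _ (by positivity)
          exact pow_le_pow_left₀ hGc.le hGcN k
      _ = ((1 - 3 * c0) * N) ^ (k + 1) := by rw [mul_pow, pow_succ (N : ℝ)]; ring
      _ ≤ (∑ n ∈ G, s n) ^ (k + 1) := pow_le_pow_left₀ (by positivity) h4 _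
  -- step 4
  obtain ⟨P, hP⟩ : ∃ P : ℝ, P =
    ((∑ p ∈ (Finset.Icc 1 N).filter Nat.Prime, (pc p (p + H)).choose k : ℕ) : ℝ) := ⟨_, rfl⟩
  rw [← hP] at h2 ⊢
  rw [← Finset.mul_sum] at h1
  have hr3 : 0 ≤ 1 - r := by linarith
  have h6 : W ^ (k + 1) * (r * (1 - r) ^ k / (k.factorial : ℝ)) * ((1 - 3 * c0) ^ (k + 1) * N) ≤
      h * P := by
    refine le_trans (mul_le_mul_of_nonneg_left h5 ?_) (h1.trans h2)
    positivity
  have hfac : (0 : ℝ) < (k.factorial : ℝ) := by exact_mod_cast Nat.factorial_pos k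
  have h7 : W ^ (k + 1) * (r * (1 - r) ^ k / (k.factorial : ℝ)) * ((1 - 3 * c0) ^ (k + 1) * N) =
      h * (((1 - r) ^ k * (1 - 3 * c0) ^ (k + 1)) * ((H : ℝ) ^ k / (k.factorial : ℝ)) *
        (N / L ^ (k + 1))) := by
    have h8 : W ^ (k + 1) * r = h * ((H : ℝ) ^ k / L ^ (k + 1)) := by
      rw [hW, hr, div_pow, pow_succ (H : ℝ)]
      field_simp
    calc W ^ (k + 1) * (r * (1 - r) ^ k / (k.factorial : ℝ)) * ((1 - 3 * c0) ^ (k + 1) * N)
        = (W ^ (k + 1) * r) * ((1 - r) ^ k / (k.factorial : ℝ)) *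
          ((1 - 3 * c0) ^ (k + 1) * N) := by ring
      _ = _ := by rw [h8]; field_simp
  rw [h7] at h6
  have h8 := le_of_mul_le_mul_left h6 hh0
  refine le_trans ?_ h8
  -- step 5
  have h9 : 1 - (k : ℝ) * η ≤ (1 - r) ^ k := by
    have h10 := one_add_mul_le_pow (show (-2 : ℝ) ≤ -r by linarith) k
    have h11 : (k : ℝ) * r ≤ k * η := mul_le_mul_of_nonneg_left hr2 (Nat.cast_nonneg _)
    have h12 : 1 + -r = 1 - r := by ring
    rw [h12] at h10
    linarith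
  have h10 : 1 - ((k : ℝ) + 1) * (3 * c0) ≤ (1 - 3 * c0) ^ (k + 1) := by
    have h10 := one_add_mul_le_pow (show (-2 : ℝ) ≤ -(3 * c0) by linarith) (k + 1)
    have h12 : 1 + -(3 * c0) = 1 - 3 * c0 := by ring
    rw [h12] at h10
    push_cast at h10
    linarith
  have h11 : (1 - r) ^ k ≤ 1 := pow_le_one₀ hr3 (by linarith)
  have h12 : (1 - 3 * c0) ^ (k + 1) ≤ 1 := pow_le_one₀ hθ0.le (by linarith)
  have h13 : 1 - k * η - (k + 1) * (3 * c0) ≤ (1 - r) ^ k * (1 - 3 * c0) ^ (k + 1) := by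
    nlinarith [mul_nonneg (sub_nonneg.2 h11) (sub_nonneg.2 h12)]
  apply mul_le_mul_of_nonneg_right _ (by positivity)
  exact mul_le_mul_of_nonneg_right h13 (by positivity)

end Pool.Agent.Helper341.Tup
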